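import Pool.Agent.Run7.h970.ND.End2
import Pool.Agent.Run7.h970.ND.Exp
import Pool.Agent.Run7.h862.ND.SEP2
import Pool.Agent.Run7.h586.ND.BND2

set_option autoImplicit false

/-!
# MP_a0ac48_co: the strong nine dragon tree conjecture with an explicit bound for all pairs `k, d`
-/

namespace Pool.Agent.Results.MP_a0ac48_co.SharperBound

open SimpleGraph Pool.Agent.Run7.h970.ND

theorem sum_shift (c d : ℕ) (hc : 1 ≤ c) (hcd : c ≤ d) :
    ∑ m ∈ Finset.range d, (d - c * m) = d + ∑ m ∈ Finset.range (d - c), (d - c - c * m) := by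
  obtain ⟨e, rfl⟩ : ∃ e, d = e + 1 := ⟨d - 1, by omega⟩
  rw [Finset.sum_range_succ', Nat.mul_zero, Nat.sub_zero, add_comm]
  congr 1
  have h1 : ∑ m ∈ Finset.range e, (e + 1 - c * (m + 1)) =
      ∑ m ∈ Finset.range e, (e + 1 - c - c * m) := by
    refine Finset.sum_congr rfl fun m _ => ?_
    rw [Nat.mul_add, Nat.mul_one]
    omega
  rw [h1]
  symm
  refine Finset.sum_subset ?_ ?_
  · intro m hm
    rw [Finset.mem_range] at hm ⊢
    omega
  · intro m _ hm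
    rw [Finset.mem_range] at hm
    have h2 : 1 * m ≤ c * m := Nat.mul_le_mul_right m hc
    omega

theorem sum_small (c d : ℕ) (hdc : d ≤ c) : ∑ m ∈ Finset.range d, (d - c * m) = d := by
  rcases Nat.eq_zero_or_pos d with h | h
  · rw [h]
    simp
  · rw [Finset.sum_eq_single_of_mem 0 (Finset.mem_range.2 h)]
    · simp
    · intro m _ hm
      have h1 : c * 1 ≤ c * m := Nat.mul_le_mul_left c (Nat.one_le_iff_ne_zero.2 hm)
      omega

theorem sum_bound (c : ℕ) (hc : 1 ≤ c) (d : ℕ) :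
    8 * c * (∑ m ∈ Finset.range d, (d - c * m)) ≤ (2 * d + c) ^ 2 := by
  induction d using Nat.strong_induction_on with
  | _ d ih =>
    rcases Nat.lt_or_ge d c with h | h
    · rw [sum_small c d h.le]
      zify
      nlinarith [sq_nonneg (2 * (d : ℤ) - c)]
    · have h1 := ih (d - c) (by omega)
      rw [sum_shift c d hc h]
      obtain ⟨e, rfl⟩ : ∃ e, d = e + c := ⟨d - c, by omega⟩
      rw [Nat.add_sub_cancel] at h1 ⊢
      nlinarith

/-- If the fractional arboricity of `G` is at most `k + d / (k + d + 1)`, then `G` decomposes into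
`k + 1` forests, one of them with at most `⌈(d + k σ) / (k + 1)⌉` edges in every component, where
`σ = d + (d - (k + 1)) + (d - 2 (k + 1)) + ...` (positive terms only). -/
theorem result (k d : ℕ) (hk : 1 ≤ k) (V : Type) [Fintype V] (G : SimpleGraph V)
    (hG : ∀ S : Set V, 2 ≤ S.ncard → ({e | e ∈ G.edgeSet ∧ ∀ v ∈ e, v ∈ S}.ncard : ℝ) ≤
      ((k : ℝ) + (d : ℝ) / ((k : ℝ) + d + 1)) * ((S.ncard : ℝ) - 1)) :
    ∃ F : Fin (k + 1) → SimpleGraph V, (∀ i, (F i).IsAcyclic) ∧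
      (∀ i j, i ≠ j → Disjoint (F i) (F j)) ∧ (⨆ i, F i) = G ∧
      ∀ v, ∀ s : ℕ,
        s = {e | e ∈ (F (Fin.last k)).edgeSet ∧ ∀ x ∈ e, (F (Fin.last k)).Reachable v x}.ncard →
        s ≤ (d + k * (∑ m ∈ Finset.range d, (d - (k + 1) * m)) + k) / (k + 1) ∧
        (s : ℝ) ≤ (k : ℝ) / 2 * ((d : ℝ) / ((k : ℝ) + 1) + 1 / 2) ^ 2 +
          ((d : ℝ) + k) / ((k : ℝ) + 1) ∧
        (d ≤ k + 1 → s ≤ d) := by
  rcases isEmpty_or_nonempty V with hV | hV
  · refine ⟨fun _ => ⊥, fun _ => isAcyclic_bot, fun _ _ _ => disjoint_bot_left, ?_,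
      fun v => isEmptyElim v⟩
    ext u
    exact isEmptyElim u
  obtain ⟨σ, hσ⟩ : ∃ σ : ℕ, σ = ∑ m ∈ Finset.range d, (d - (k + 1) * m) := ⟨_, rfl⟩
  have hσ8 : 8 * (k + 1) * σ ≤ (2 * d + (k + 1)) ^ 2 := by
    rw [hσ]
    exact sum_bound (k + 1) (by omega) d
  rw [← hσ]
  obtain ⟨D, hD⟩ : ∃ D : ℕ, D = (d + k * σ + k) / (k + 1) := ⟨_, rfl⟩
  have hD1 : (k + 1) * D + (d + k * σ + k) % (k + 1) = d + k * σ + k := by
    rw [hD]
    exact Nat.div_add_mod _ _
  have hD2 : (d + k * σ + k) % (k + 1) < k + 1 := Nat.mod_lt _ (Nat.succ_pos k)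
  have hD3 : d + k * (∑ m ∈ Finset.range d, (d - (k + 1) * m)) ≤ (k + 1) * D := by
    rw [← hσ]
    omega
  have hD4 : (k + 1) * D ≤ d + k * σ + k := by omega
  have hkd : (0 : ℝ) < (k : ℝ) + d + 1 := by positivity
  obtain ⟨T, R, hC, hcs⟩ := t_END2
    (t_MX2 Pool.Agent.Run7.h680.ND.t_SEP Pool.Agent.Run7.h862.ND.t_SEP2
      Pool.Agent.Run7.h24.ND.t_JOIN) Pool.Agent.Run7.h586.ND.t_BND2 k d D hk hD3 V G (by
    intro S hS
    have h1 := hG S hS
    have h2 : ((k : ℝ) + d + 1) * (ec G S : ℝ) ≤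
        ((k : ℝ) * ((k : ℝ) + d + 1) + d) * ((S.ncard : ℝ) - 1) := by
      have h3 : ((k : ℝ) + d + 1) * (ec G S : ℝ) ≤ ((k : ℝ) + d + 1) *
          (((k : ℝ) + (d : ℝ) / ((k : ℝ) + d + 1)) * ((S.ncard : ℝ) - 1)) :=
        mul_le_mul_of_nonneg_left h1 hkd.le
      refine h3.trans (le_of_eq ?_)
      field_simp
    have h4 : ((S.ncard - 1 : ℕ) : ℝ) = (S.ncard : ℝ) - 1 := by
      rw [Nat.cast_sub (by omega)]
      norm_num
    have h5 : (((k + d + 1) * ec G S : ℕ) : ℝ) ≤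
        (((k * (k + d + 1) + d) * (S.ncard - 1) : ℕ) : ℝ) := by
      push_cast [h4]
      exact h2
    exact_mod_cast h5)
  obtain ⟨F, h1, h2, h3, h4⟩ := part_of_cfg hC
  refine ⟨F, h1, h2, h3, ?_⟩
  intro v s hs
  rw [h4] at hs
  have h5 := edges_comp hC.acyc v
  have h6 := hcs v
  have h7 : s ≤ D := by omega
  refine ⟨by rw [← hD]; exact h7, ?_, ?_⟩
  · have h8 : (k + 1) * s ≤ d + k * σ + k := (Nat.mul_le_mul_left _ h7).trans hD4
    have h9 : ((k : ℝ) + 1) * s ≤ d + k * σ + k := by exact_mod_cast h8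
    have h10 : 8 * ((k : ℝ) + 1) * σ ≤ (2 * d + (k + 1)) ^ 2 := by exact_mod_cast hσ8
    have hk1 : (0 : ℝ) < (k : ℝ) + 1 := by positivity
    have h11 : (σ : ℝ) ≤ (2 * d + (k + 1)) ^ 2 / (8 * ((k : ℝ) + 1)) := by
      rw [le_div_iff₀ (by positivity)]
      linarith
    have h12 : (s : ℝ) ≤ (d + k * ((2 * d + (k + 1)) ^ 2 / (8 * ((k : ℝ) + 1))) + k) /
        ((k : ℝ) + 1) := by
      rw [le_div_iff₀ hk1]
      have h13 : (k : ℝ) * σ ≤ k * ((2 * d + (k + 1)) ^ 2 / (8 * ((k : ℝ) + 1))) :=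
        mul_le_mul_of_nonneg_left h11 (Nat.cast_nonneg k)
      linarith
    refine h12.trans (le_of_eq ?_)
    field_simp
    ring
  · intro hdk
    have h8 : σ = d := by
      rw [hσ]
      exact sum_small (k + 1) d hdk
    rw [h8] at hD4
    have h9 : (k + 1) * D < (k + 1) * (d + 1) := by
      calc (k + 1) * D ≤ d + k * d + k := hD4
        _ < (k + 1) * (d + 1) := by
          have : (k + 1) * (d + 1) = d + k * d + k + 1 := by ring
          omega
    have h10 : D < d + 1 := Nat.lt_of_mul_lt_mul_left h9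
    omega

end Pool.Agent.Results.MP_a0ac48_co.SharperBound
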